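import Pool.Agent.GT.StmtsD

/-!
# Squad GT, row D_MLO: multiplicative reduction, odd case
-/

set_option autoImplicit false

namespace Pool.Agent.GT.D.H18

open Pool.Agent.GT.D

lemma val_eq {p : ℕ} [Fact p.Prime] {n : ℤ} {k : ℕ} (h1 : (p : ℤ) ^ k ∣ n)
    (h2 : ¬ (p : ℤ) ^ (k + 1) ∣ n) : padicValInt p n = k := by
  have hn : n ≠ 0 := by
    rintro rfl
    exact h2 (dvd_zero _)
  rw [padicValInt_dvd_iff] at h1 h2
  push Not at h2
  rcases h1 with h | h
  · exact absurd h hn
  · have := h2.2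
    omega

lemma dvd_val {p : ℕ} [Fact p.Prime] (n : ℤ) : (p : ℤ) ^ padicValInt p n ∣ n := by
  rw [padicValInt_dvd_iff]
  exact Or.inr le_rfl

lemma not_dvd_val {p : ℕ} [Fact p.Prime] {n : ℤ} (hn : n ≠ 0) :
    ¬ (p : ℤ) ^ (padicValInt p n + 1) ∣ n := by
  rw [padicValInt_dvd_iff]
  push Not
  exact ⟨hn, Nat.lt_succ_self _⟩

lemma un_mul {p : ℕ} [Fact p.Prime] (n : ℤ) : n = (p : ℤ) ^ padicValInt p n * un p n := by
  unfold un
  rw [Int.mul_ediv_cancel' (dvd_val n)]

lemma ul_of_un {p : ℕ} {m n : ℤ} (h : (p : ℤ) ∣ un p m - un p n) : ul p m = ul p n := by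
  have h1 : ((un p m : ℤ) : ZMod p) = ((un p n : ℤ) : ZMod p) := by
    rw [← sub_eq_zero, ← Int.cast_sub, ZMod.intCast_zmod_eq_zero_iff_dvd]
    exact h
  unfold ul
  rw [h1]

lemma zmod_two (a : ZMod 2) : a = 0 ∨ a = 1 := by
  revert a
  decide

/-- equal even valuations -/
lemma ul_eq_of_even {p : ℕ} [Fact p.Prime] {u u' : ℤ} (hu : u ≠ 0) (hu' : u' ≠ 0)
    (h1 : vl p u = 0) (h2 : vl p u' = 0) (h3 : vl p (u' - u) = 1) : ul p u' = ul p u := by
  set a := padicValInt p u with ha
  set b := padicValInt p u' with hb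
  have hne : ∀ k : ℕ, padicValInt p (u' - u) = k → (k : ZMod 2) = 1 := by
    intro k hk
    unfold vl at h3
    rw [hk] at h3
    exact h3
  have ha0 : (a : ZMod 2) = 0 := h1
  have hb0 : (b : ZMod 2) = 0 := h2
  have hab : a = b := by
    rcases lt_trichotomy a b with h | h | h
    · exfalso
      have e1 : (p : ℤ) ^ (a + 1) ∣ u' := (pow_dvd_pow _ (by omega)).trans (dvd_val u')
      have e2 : padicValInt p (u' - u) = a := by
        refine val_eq (dvd_sub ((pow_dvd_pow _ (Nat.le_succ a)).trans e1) (dvd_val u)) ?_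
        intro h4
        have h5 := dvd_sub e1 h4
        rw [sub_sub_cancel] at h5
        exact not_dvd_val hu h5
      have := hne a e2
      rw [ha0] at this
      exact absurd this (by decide)
    · exact h
    · exfalso
      have e1 : (p : ℤ) ^ (b + 1) ∣ u := (pow_dvd_pow _ (by omega)).trans (dvd_val u)
      have e2 : padicValInt p (u' - u) = b := by
        refine val_eq (dvd_sub (dvd_val u') ((pow_dvd_pow _ (Nat.le_succ b)).trans e1)) ?_
        intro h4
        have h5 := dvd_add h4 e1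
        rw [sub_add_cancel] at h5
        exact not_dvd_val hu' h5
      have := hne b e2
      rw [hb0] at this
      exact absurd this (by decide)
  refine ul_of_un ?_
  by_contra hnd
  have h4 : u' - u = (p : ℤ) ^ a * (un p u' - un p u) := by
    have e1 := un_mul (p := p) u
    have e2 := un_mul (p := p) u'
    rw [← ha] at e1
    rw [← hb, ← hab] at e2
    rw [mul_sub, ← e1, ← e2]
  have hp0 : (p : ℤ) ^ a ≠ 0 := pow_ne_zero _ (by exact_mod_cast (Fact.out : p.Prime).ne_zero)
  have h5 : padicValInt p (u' - u) = a := by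
    refine val_eq (by rw [h4]; exact dvd_mul_right _ _) ?_
    rw [h4, pow_succ]
    intro h6
    exact hnd ((mul_dvd_mul_iff_left hp0).1 h6)
  have := hne a h5
  rw [ha0] at this
  exact absurd this (by decide)

/-- **D_MLO.** -/
theorem d_mlo (hadd : AddStmt) (hval : ValStmt) : MloStmt := by
  intro e r s p i hT hp hp2 hA hB hC
  have : Fact p.Prime := ⟨hp⟩
  have hpi : Prime (p : ℤ) := Nat.prime_iff_prime_int.1 hp
  have fv : Adf (vl p) := hadd.1 p hp
  have fu : Adf (ul p) := hadd.2.1 p hp hp2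
  set x := Xc e r s i with hx
  set u := Xc e r s (i + 1) with hu
  set u' := Xc e r s (i + 2) with hu'
  have hx0 : x ≠ 0 := hT.ne i
  have hu0 : u ≠ 0 := hT.ne (i + 1)
  have hu'0 : u' ≠ 0 := hT.ne (i + 2)
  have hxu : x = u + (e (i + 1) - e i) * s ^ 2 := by
    rw [hx, hu]
    unfold Xc
    ring
  have hxu' : x = u' + (e (i + 2) - e i) * s ^ 2 := by
    rw [hx, hu']
    unfold Xc
    ring
  have huu' : u' - u = (e (i + 1) - e (i + 2)) * (s * s) := by
    rw [hu, hu']
    unfold Xc
    ring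
  have hsq : IsSquare (x * u * u') := by
    have h := hT.sq
    rw [hx, hu, hu']
    fin_cases i
    · exact h
    · have e1 : Xc e r s ((⟨1, by norm_num⟩ : Fin 3)) * Xc e r s ((⟨1, by norm_num⟩ : Fin 3) + 1) *
          Xc e r s ((⟨1, by norm_num⟩ : Fin 3) + 2) = Xc e r s 0 * Xc e r s 1 * Xc e r s 2 := by
        show Xc e r s 1 * Xc e r s 2 * Xc e r s 0 = _
        ring
      rw [← e1] at h
      exact h
    · have e1 : Xc e r s ((⟨2, by norm_num⟩ : Fin 3)) * Xc e r s ((⟨2, by norm_num⟩ : Fin 3) + 1) *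
          Xc e r s ((⟨2, by norm_num⟩ : Fin 3) + 2) = Xc e r s 0 * Xc e r s 1 * Xc e r s 2 := by
        show Xc e r s 2 * Xc e r s 0 * Xc e r s 1 = _
        ring
      rw [← e1] at h
      exact h
  obtain ⟨t, ht⟩ := hsq
  have ht0 : t ≠ 0 := by
    rintro rfl
    rw [mul_zero] at ht
    exact mul_ne_zero (mul_ne_zero hx0 hu0) hu'0 ht
  have fsum : ∀ f : ℤ → ZMod 2, Adf f → f x + f u + f u' = 0 := by
    intro f hf
    rw [← hf.mul x u hx0 hu0, ← hf.mul (x * u) u' (mul_ne_zero hx0 hu0) hu'0, ht]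
    exact hf.sq ht0
  have sv := fsum _ fv
  have su := fsum _ fu
  have hunit : ∀ n : ℤ, ¬ (p : ℤ) ∣ n → vl p n = 0 ∧ un p n = n := fun n hn => hval.1 p n hp hn
  have ulc : ∀ m n : ℤ, ¬ (p : ℤ) ∣ m → ¬ (p : ℤ) ∣ n → (p : ℤ) ∣ m - n → ul p m = ul p n := by
    intro m n hm hn h
    refine ul_of_un ?_
    rw [(hunit m hm).2, (hunit n hn).2]
    exact h
  have hCne : e (i + 1) - e (i + 2) ≠ 0 := by
    intro h
    rw [h] at hC
    unfold vl at hC
    simp at hC
  have hpC : (p : ℤ) ∣ e (i + 1) - e (i + 2) := by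
    by_contra h
    rw [(hunit _ h).1] at hC
    exact absurd hC (by decide)
  by_cases hps : (p : ℤ) ∣ s
  · -- p divides s
    have hpr : ¬ (p : ℤ) ∣ r := fun h =>
      hpi.not_isUnit (hT.cop.isUnit_of_dvd' h hps)
    have hd : ∀ j, (p : ℤ) ∣ Xc e r s j - r := by
      intro j
      have h1 : Xc e r s j - r = -(e j * s) * s := by
        unfold Xc
        ring
      rw [h1]
      exact dvd_mul_of_dvd_right hps _
    have hnd : ∀ j, ¬ (p : ℤ) ∣ Xc e r s j := by
      intro j h
      have := dvd_sub h (hd j)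
      rw [sub_sub_cancel] at this
      exact hpr this
    have c1 : ul p x = ul p r := ulc _ _ (hnd i) hpr (hd i)
    have c2 : ul p u = ul p r := ulc _ _ (hnd (i + 1)) hpr (hd (i + 1))
    have c3 : ul p u' = ul p r := ulc _ _ (hnd (i + 2)) hpr (hd (i + 2))
    rw [(hunit _ (hnd i)).1, (hunit _ (hnd (i + 1))).1, (hunit _ (hnd (i + 2))).1]
    refine ⟨rfl, rfl, ?_⟩
    rw [zero_mul, c1]
    rw [c1, c2, c3] at su
    rcases zmod_two (ul p r) with h | h
    · exact h
    · rw [h] at su
      exact absurd su (by decide)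
  · have hps2 : ¬ (p : ℤ) ∣ s ^ 2 := fun h => hps (hpi.dvd_of_dvd_pow h)
    have hAs : ¬ (p : ℤ) ∣ (e (i + 1) - e i) * s ^ 2 := fun h =>
      (hpi.dvd_or_dvd h).elim hA hps2
    have hBs : ¬ (p : ℤ) ∣ (e (i + 2) - e i) * s ^ 2 := fun h =>
      (hpi.dvd_or_dvd h).elim hB hps2
    by_cases hpx : (p : ℤ) ∣ x
    · have hpu : ¬ (p : ℤ) ∣ u := fun h => hAs ((Int.dvd_add_right h).1 (hxu ▸ hpx))
      have hpu' : ¬ (p : ℤ) ∣ u' := fun h => hBs ((Int.dvd_add_right h).1 (hxu' ▸ hpx))
      have c1 : ul p u' = ul p u := ulc _ _ hpu' hpu (by rw [huu']; exact hpC.mul_right _)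
      rw [(hunit u hpu).1, (hunit u' hpu').1] at sv
      rw [c1] at su
      rw [(hunit u hpu).1, (hunit u' hpu').1]
      refine ⟨by simpa using sv, rfl, ?_⟩
      rw [zero_mul]
      rcases zmod_two (ul p u) with h | h
      · rw [h] at su
        simpa using su
      · rw [h, add_assoc] at su
        rw [show (1 : ZMod 2) + 1 = 0 by decide, add_zero] at su
        exact su
    · have vx := (hunit x hpx).1
      rw [vx, zero_add] at sv
      have vv : vl p u' = vl p u := by
        rcases zmod_two (vl p u) with h | h <;> rcases zmod_two (vl p u') with h' | h' <;>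
          rw [h, h'] at sv ⊢ <;> first | rfl | exact absurd sv (by decide)
      refine ⟨vx, vv, ?_⟩
      rcases zmod_two (vl p u) with h | h
      · -- even valuation
        have h3 : vl p (u' - u) = 1 := by
          have hs0 := hT.s0
          rw [huu', fv.mul _ _ hCne (mul_ne_zero hs0 hs0), fv.sq hs0, add_zero, hC]
        have c1 := ul_eq_of_even hu0 hu'0 h (vv.trans h) h3
        rw [c1] at su
        rw [h, zero_mul]
        rcases zmod_two (ul p u) with h' | h'
        · rw [h'] at su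
          simpa using su
        · rw [h', add_assoc] at su
          rw [show (1 : ZMod 2) + 1 = 0 by decide, add_zero] at su
          exact su
      · -- odd valuation
        have hpu : (p : ℤ) ∣ u := by
          by_contra h'
          rw [(hunit u h').1] at h
          exact absurd h (by decide)
        have hA0 : e (i + 1) - e i ≠ 0 := fun h' => hA (by rw [h']; exact dvd_zero _)
        have hs0 := hT.s0
        have c1 : ul p x = ul p ((e (i + 1) - e i) * s ^ 2) := by
          refine ulc _ _ hpx hAs ?_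
          rw [hxu, add_sub_cancel_right]
          exact hpu
        rw [h, one_mul, c1, sq, fu.mul _ _ hA0 (mul_ne_zero hs0 hs0), fu.sq hs0, add_zero]

end Pool.Agent.GT.D.H18
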