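import Pool.Agent.GT.StmtsE

set_option autoImplicit false

namespace Pool.Agent.GT.OF.H18

open Pool.Agent.GT.OF

section

variable {F : Type} [Field F] [Fintype F] [DecidableEq F]

/-- The sum of `χ (x - a)`. -/
theorem sum_one (hF : ringChar F ≠ 2) (a : F) : ∑ x : F, quadraticChar F (x - a) = 0 := by
  rw [← quadraticChar_sum_zero hF]
  exact Fintype.sum_equiv (Equiv.subRight a) _ _ fun x => rfl

/-- The sum of `χ (x - a) χ (x - b)`. -/
theorem sum_two (hF : ringChar F ≠ 2) {a b : F} (hab : a ≠ b) :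
    ∑ x : F, quadraticChar F (x - a) * quadraticChar F (x - b) = -1 := by
  have hd : b - a ≠ 0 := sub_ne_zero.2 (Ne.symm hab)
  have h1 : jacobiSum (quadraticChar F) (quadraticChar F) = -(quadraticChar F) (-1) := by
    have h := jacobiSum_nontrivial_inv (quadraticChar_ne_one hF)
    rwa [(quadraticChar_isQuadratic F).inv] at h
  let e : F ≃ F := (Equiv.mulLeft₀ (b - a) hd).trans (Equiv.addRight a)
  have he : ∀ y, e y = (b - a) * y + a := fun y => rfl
  have h2 : ∑ x : F, quadraticChar F (x - a) * quadraticChar F (x - b) =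
      ∑ y : F, quadraticChar F (-1) * (quadraticChar F y * quadraticChar F (1 - y)) := by
    symm
    refine Fintype.sum_equiv e _ _ fun y => ?_
    have h3 : e y - a = (b - a) * y := by rw [he]; ring
    have h4 : e y - b = -1 * ((b - a) * (1 - y)) := by rw [he]; ring
    rw [h3, h4, map_mul, map_mul, map_mul]
    have h5 : quadraticChar F (b - a) * quadraticChar F (b - a) = 1 := by
      have h := quadraticChar_sq_one hd
      rwa [sq] at h
    calc quadraticChar F (-1) * (quadraticChar F y * quadraticChar F (1 - y))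
        = (quadraticChar F (b - a) * quadraticChar F (b - a)) *
          (quadraticChar F (-1) * (quadraticChar F y * quadraticChar F (1 - y))) := by
          rw [h5, one_mul]
      _ = _ := by ring
  rw [h2, ← Finset.mul_sum]
  have h6 : ∑ y : F, quadraticChar F y * quadraticChar F (1 - y) =
      jacobiSum (quadraticChar F) (quadraticChar F) := rfl
  rw [h6, h1]
  have h7 : quadraticChar F (-1) * quadraticChar F (-1) = 1 := by
    have h := quadraticChar_sq_one (F := F) (a := -1) (neg_ne_zero.2 one_ne_zero)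
    rwa [sq] at h
  rw [mul_neg, h7]

/-- The product. -/
def pr (a : Fin 3 → F) (s0 s1 s2 : ℤ) (x : F) : ℤ :=
  (1 + s0 * quadraticChar F (x - a 0)) * (1 + s1 * quadraticChar F (x - a 1)) *
    (1 + s2 * quadraticChar F (x - a 2))

theorem sum_pr (hF : ringChar F ≠ 2) (a : Fin 3 → F) (ha : ∀ i j, i ≠ j → a i ≠ a j)
    (s0 s1 s2 : ℤ) : ∑ x : F, pr a s0 s1 s2 x = (Fintype.card F : ℤ) -
      (s0 * s1 + s0 * s2 + s1 * s2) + s0 * s1 * s2 * ∑ x : F, quadraticChar F (x - a 0) *
        quadraticChar F (x - a 1) * quadraticChar F (x - a 2) := by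
  have h : ∀ x, pr a s0 s1 s2 x = 1 + s0 * quadraticChar F (x - a 0) +
      s1 * quadraticChar F (x - a 1) + s2 * quadraticChar F (x - a 2) +
      s0 * s1 * (quadraticChar F (x - a 0) * quadraticChar F (x - a 1)) +
      s0 * s2 * (quadraticChar F (x - a 0) * quadraticChar F (x - a 2)) +
      s1 * s2 * (quadraticChar F (x - a 1) * quadraticChar F (x - a 2)) +
      s0 * s1 * s2 * (quadraticChar F (x - a 0) * quadraticChar F (x - a 1) *
        quadraticChar F (x - a 2)) := fun x => by
    unfold pr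
    ring
  simp only [h, Finset.sum_add_distrib, ← Finset.mul_sum]
  rw [sum_one hF, sum_one hF, sum_one hF, sum_two hF (ha 0 1 (by decide)),
    sum_two hF (ha 0 2 (by decide)), sum_two hF (ha 1 2 (by decide)), Finset.sum_const,
    Finset.card_univ]
  simp only [nsmul_eq_mul, mul_one]
  ring

theorem qc_zero (x : F) : quadraticChar F (x - x) = 0 := by
  rw [sub_self, MulChar.map_zero]

/-- The sum over the three points. -/
theorem sum_three (a : Fin 3 → F) (ha : ∀ i j, i ≠ j → a i ≠ a j) (s0 s1 s2 : ℤ) :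
    ∑ x ∈ ({a 0, a 1, a 2} : Finset F), pr a s0 s1 s2 x =
      (1 + s1 * quadraticChar F (a 0 - a 1)) * (1 + s2 * quadraticChar F (a 0 - a 2)) +
      (1 + s0 * quadraticChar F (a 1 - a 0)) * (1 + s2 * quadraticChar F (a 1 - a 2)) +
      (1 + s0 * quadraticChar F (a 2 - a 0)) * (1 + s1 * quadraticChar F (a 2 - a 1)) := by
  have h01 := ha 0 1 (by decide)
  have h02 := ha 0 2 (by decide)
  have h12 := ha 1 2 (by decide)
  rw [Finset.sum_insert, Finset.sum_insert, Finset.sum_singleton]
  · unfold pr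
    rw [qc_zero, qc_zero, qc_zero]
    ring
  · rw [Finset.mem_singleton]
    exact h12
  · rw [Finset.mem_insert, Finset.mem_singleton, not_or]
    exact ⟨h01, h02⟩

theorem pr_nonneg (a : Fin 3 → F) (x : F) : 0 ≤ pr a 1 1 1 x := by
  have h : ∀ y : F, 0 ≤ 1 + 1 * quadraticChar F y := fun y => by
    by_cases hy : y = 0
    · rw [hy, MulChar.map_zero]
      norm_num
    · rcases quadraticChar_dichotomy hy with h | h <;> rw [h] <;> norm_num
  exact mul_nonneg (mul_nonneg (h _) (h _)) (h _)

end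

/-- The finite check. -/
theorem fin_check (ε A B C s0 s1 s2 : ℤ) (hε : ε = 1 ∨ ε = -1) (hA : A = 1 ∨ A = -1)
    (hB : B = 1 ∨ B = -1) (hC : C = 1 ∨ C = -1) (h0 : s0 = 1 ∨ s0 = -1) (h1 : s1 = 1 ∨ s1 = -1)
    (h2 : s2 = 1 ∨ s2 = -1) (hs : s0 * s1 * s2 = 1)
    (h : 3 - (s0 * s1 + s0 * s2 + s1 * s2) +
      ((1 + 1 * A) * (1 + 1 * B) + (1 + 1 * (ε * A)) * (1 + 1 * C) +
        (1 + 1 * (ε * B)) * (1 + 1 * (ε * C))) -
      ((1 + s1 * A) * (1 + s2 * B) + (1 + s0 * (ε * A)) * (1 + s2 * C) +
        (1 + s0 * (ε * B)) * (1 + s1 * (ε * C))) ≤ 0) :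
    (s0 = 1 ∧ s1 = 1 ∧ s2 = 1) ∨ (s1 * A = 1 ∧ s2 * B = 1) ∨
      (s0 * (ε * A) = 1 ∧ s2 * C = 1) ∨ (s0 * (ε * B) = 1 ∧ s1 * (ε * C) = 1) := by
  rcases hε with rfl | rfl <;> rcases hA with rfl | rfl <;> rcases hB with rfl | rfl <;>
    rcases hC with rfl | rfl <;> rcases h0 with rfl | rfl <;> rcases h1 with rfl | rfl <;>
    rcases h2 with rfl | rfl <;> omega

theorem ffd : FfdStmt := by
  intro q hq a c hq2 ha hc hsq
  have hF : ringChar (ZMod q) ≠ 2 := by
    rw [ZMod.ringChar_zmod_n]
    exact hq2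
  by_contra hcon
  rw [not_or, not_or] at hcon
  obtain ⟨hn1, hn2, hn3⟩ := hcon
  have hdich : ∀ i, quadraticChar (ZMod q) (c i) = 1 ∨ quadraticChar (ZMod q) (c i) = -1 :=
    fun i => quadraticChar_dichotomy (hc i)
  have hd : ∀ i j, i ≠ j → a i - a j ≠ 0 := fun i j hij => sub_ne_zero.2 (ha i j hij)
  have hprod : quadraticChar (ZMod q) (c 0) * quadraticChar (ZMod q) (c 1) *
      quadraticChar (ZMod q) (c 2) = 1 := by
    rw [← map_mul, ← map_mul]
    exact (quadraticChar_one_iff_isSquare (mul_ne_zero (mul_ne_zero (hc 0) (hc 1)) (hc 2))).2 hsq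
  have hε : ∀ i j, quadraticChar (ZMod q) (a i - a j) =
      quadraticChar (ZMod q) (-1) * quadraticChar (ZMod q) (a j - a i) := fun i j => by
    rw [← map_mul]
    congr 1
    ring
  -- no solution: the product vanishes outside of the three points
  have hzero : ∀ x, x ∉ ({a 0, a 1, a 2} : Finset (ZMod q)) →
      pr a (quadraticChar (ZMod q) (c 0)) (quadraticChar (ZMod q) (c 1))
        (quadraticChar (ZMod q) (c 2)) x = 0 := by
    intro x hx
    rw [Finset.mem_insert, Finset.mem_insert, Finset.mem_singleton, not_or, not_or] at hx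
    have hx' : ∀ i, x - a i ≠ 0 := fun i => by
      rw [sub_ne_zero]
      fin_cases i
      · exact hx.1
      · exact hx.2.1
      · exact hx.2.2
    have hex : ∃ i, ¬ IsSquare (c i * (x - a i)) := by
      by_contra hno
      apply hn3
      refine ⟨x, fun i => ⟨hx' i, ?_⟩⟩
      by_contra h
      exact hno ⟨i, h⟩
    obtain ⟨i, hi⟩ := hex
    have hi2 : quadraticChar (ZMod q) (c i) * quadraticChar (ZMod q) (x - a i) = -1 := by
      rw [← map_mul]
      exact quadraticChar_neg_one_iff_not_isSquare.2 hi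
    have hi3 : 1 + quadraticChar (ZMod q) (c i) * quadraticChar (ZMod q) (x - a i) = 0 := by
      rw [hi2]
      norm_num
    unfold pr
    fin_cases i
    · have h := hi3
      simp only [Fin.zero_eta, Fin.isValue] at h
      rw [h, zero_mul, zero_mul]
    · have h := hi3
      simp only [Fin.mk_one, Fin.isValue] at h
      rw [h, mul_zero, zero_mul]
    · have h := hi3
      simp only [Fin.reduceFinMk, Fin.isValue] at h
      rw [h, mul_zero]
  have e1 := sum_pr hF a ha (quadraticChar (ZMod q) (c 0)) (quadraticChar (ZMod q) (c 1))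
    (quadraticChar (ZMod q) (c 2))
  have e2 := sum_pr hF a ha 1 1 1
  rw [← Finset.sum_subset (Finset.subset_univ ({a 0, a 1, a 2} : Finset (ZMod q)))
    fun x _ hx => hzero x hx, sum_three a ha, hprod] at e1
  have e3 : ∑ x ∈ ({a 0, a 1, a 2} : Finset (ZMod q)), pr a 1 1 1 x ≤ ∑ x, pr a 1 1 1 x :=
    Finset.sum_le_univ_sum_of_nonneg fun x => pr_nonneg a x
  rw [e2, sum_three a ha] at e3
  rw [hε 1 0, hε 2 0, hε 2 1] at e1 e3
  have hA := quadraticChar_dichotomy (hd 0 1 (by decide))
  have hB := quadraticChar_dichotomy (hd 0 2 (by decide))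
  have hC := quadraticChar_dichotomy (hd 1 2 (by decide))
  have hE : quadraticChar (ZMod q) (-1) = 1 ∨ quadraticChar (ZMod q) (-1) = -1 :=
    quadraticChar_dichotomy (neg_ne_zero.2 one_ne_zero)
  have key := fin_check _ _ _ _ _ _ _ hE hA hB hC (hdich 0) (hdich 1) (hdich 2) hprod
    (by linarith)
  have hsquare : ∀ k j, k ≠ j → quadraticChar (ZMod q) (c k) *
      quadraticChar (ZMod q) (a j - a k) = 1 → IsSquare (c k * (a j - a k)) := by
    intro k j hkj h
    rw [← map_mul] at h
    exact (quadraticChar_one_iff_isSquare (mul_ne_zero (hc k) (hd j k (Ne.symm hkj)))).1 h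
  rcases key with ⟨k0, k1, k2⟩ | ⟨k1, k2⟩ | ⟨k0, k2⟩ | ⟨k0, k1⟩
  · apply hn1
    intro i
    fin_cases i
    · exact (quadraticChar_one_iff_isSquare (hc 0)).1 k0
    · exact (quadraticChar_one_iff_isSquare (hc 1)).1 k1
    · exact (quadraticChar_one_iff_isSquare (hc 2)).1 k2
  · apply hn2
    refine ⟨0, fun k hk => ?_⟩
    fin_cases k
    · exact absurd rfl hk
    · exact hsquare 1 0 (by decide) k1
    · exact hsquare 2 0 (by decide) k2
  · apply hn2
    rw [← hε 1 0] at k0
    refine ⟨1, fun k hk => ?_⟩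
    fin_cases k
    · exact hsquare 0 1 (by decide) k0
    · exact absurd rfl hk
    · exact hsquare 2 1 (by decide) k2
  · apply hn2
    rw [← hε 2 0] at k0
    rw [← hε 2 1] at k1
    refine ⟨2, fun k hk => ?_⟩
    fin_cases k
    · exact hsquare 0 2 (by decide) k0
    · exact hsquare 1 2 (by decide) k1
    · exact absurd rfl hk

end Pool.Agent.GT.OF.H18
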