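import Pool.Agent.GT.StmtsF

set_option autoImplicit false

namespace Pool.Agent.GT.F.H18

open Polynomial Pool.Agent.NJ Pool.Agent.GT.F

theorem roo (hE : EvlStmt) : RooStmt := by
  classical
  obtain ⟨h1, h2, -, h4⟩ := hE
  intro E e hΔ hR hinj
  choose Z hZ using h4
  have hadd : ∀ (t : ℚ) (f g : RatFunc ℚ), f.denom.eval t ≠ 0 → g.denom.eval t ≠ 0 →
      (f + g).denom.eval t ≠ 0 ∧ ev t (f + g) = ev t f + ev t g :=
    fun t f g hf hg => ⟨(h1 t f g hf hg).1, (h1 t f g hf hg).2.1⟩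
  have hsub : ∀ (t : ℚ) (f g : RatFunc ℚ), f.denom.eval t ≠ 0 → g.denom.eval t ≠ 0 →
      ev t (f - g) = ev t f - ev t g :=
    fun t f g hf hg => (h1 t f g hf hg).2.2.2.1
  have hmul : ∀ (t : ℚ) (f g : RatFunc ℚ), f.denom.eval t ≠ 0 → g.denom.eval t ≠ 0 →
      (f * g).denom.eval t ≠ 0 ∧ ev t (f * g) = ev t f * ev t g :=
    fun t f g hf hg => ⟨(h1 t f g hf hg).2.2.2.2.1, (h1 t f g hf hg).2.2.2.2.2⟩
  have hc : ∀ (t c : ℚ), (algebraMap ℚ[X] (RatFunc ℚ) (C c)).denom.eval t ≠ 0 ∧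
      ev t (algebraMap ℚ[X] (RatFunc ℚ) (C c)) = c := fun t c => by
    refine ⟨(h2 t (C c)).1, ?_⟩
    rw [(h2 t (C c)).2, eval_C]
  have hm4 : (-4 : RatFunc ℚ) = algebraMap ℚ[X] (RatFunc ℚ) (C (-4)) := by
    rw [map_neg, map_neg]
    congr 1
    rw [map_ofNat, map_ofNat]
  have h22 : (2 : RatFunc ℚ) = algebraMap ℚ[X] (RatFunc ℚ) (C 2) := by
    rw [map_ofNat, map_ofNat]
  obtain ⟨hb2, hb4, hb6⟩ := hR
  refine ⟨E.Δ.roots.toFinset ∪ (Finset.univ.biUnion fun i => Z (e i)) ∪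
    (Finset.univ.biUnion fun p : Fin 3 × Fin 3 => Z (e p.1 - e p.2)), fun t ht => ?_⟩
  rw [Finset.mem_union, Finset.mem_union, not_or, not_or] at ht
  obtain ⟨⟨ht1, ht2⟩, ht3⟩ := ht
  have hd : ∀ i, (e i).denom.eval t ≠ 0 := fun i =>
    (hZ (e i) t fun h => ht2 (Finset.mem_biUnion.2 ⟨i, Finset.mem_univ i, h⟩)).1
  have hne : ∀ i j, e i - e j ≠ 0 → ev t (e i - e j) ≠ 0 := fun i j =>
    (hZ (e i - e j) t fun h => ht3 (Finset.mem_biUnion.2 ⟨(i, j), Finset.mem_univ _, h⟩)).2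
  refine ⟨?_, hd, ⟨?_, ?_, ?_⟩, ?_⟩
  · have h : (fib E t).Δ = E.Δ.eval t := by
      unfold fib
      rw [WeierstrassCurve.map_Δ, coe_evalRingHom]
    rw [h]
    intro h0
    apply ht1
    rw [Multiset.mem_toFinset, mem_roots hΔ]
    exact h0
  · have h : (fib E t).b₂ = E.b₂.eval t := by
      unfold fib
      rw [WeierstrassCurve.map_b₂, coe_evalRingHom]
    have h' : (gen E).b₂ = algebraMap ℚ[X] (RatFunc ℚ) E.b₂ := by
      unfold gen
      rw [WeierstrassCurve.map_b₂]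
    rw [h, ← (h2 t E.b₂).2, ← h', hb2, hm4]
    have s1 := hadd t _ _ (hd 0) (hd 1)
    have s2 := hadd t _ _ s1.1 (hd 2)
    have s3 := hmul t _ _ (hc t (-4)).1 s2.1
    rw [s3.2, (hc t (-4)).2, s2.2, s1.2]
  · have h : (fib E t).b₄ = E.b₄.eval t := by
      unfold fib
      rw [WeierstrassCurve.map_b₄, coe_evalRingHom]
    have h' : (gen E).b₄ = algebraMap ℚ[X] (RatFunc ℚ) E.b₄ := by
      unfold gen
      rw [WeierstrassCurve.map_b₄]
    rw [h, ← (h2 t E.b₄).2, ← h', hb4, h22]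
    have a1 := hmul t _ _ (hd 0) (hd 1)
    have a2 := hmul t _ _ (hd 0) (hd 2)
    have a3 := hmul t _ _ (hd 1) (hd 2)
    have s1 := hadd t _ _ a1.1 a2.1
    have s2 := hadd t _ _ s1.1 a3.1
    have s3 := hmul t _ _ (hc t 2).1 s2.1
    rw [s3.2, (hc t 2).2, s2.2, s1.2, a1.2, a2.2, a3.2]
  · have h : (fib E t).b₆ = E.b₆.eval t := by
      unfold fib
      rw [WeierstrassCurve.map_b₆, coe_evalRingHom]
    have h' : (gen E).b₆ = algebraMap ℚ[X] (RatFunc ℚ) E.b₆ := by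
      unfold gen
      rw [WeierstrassCurve.map_b₆]
    rw [h, ← (h2 t E.b₆).2, ← h', hb6, hm4]
    have a1 := hmul t _ _ (hd 0) (hd 1)
    have a2 := hmul t _ _ a1.1 (hd 2)
    have s3 := hmul t _ _ (hc t (-4)).1 a2.1
    rw [s3.2, (hc t (-4)).2, a2.2, a1.2]
  · intro i j hij
    by_contra hne'
    have h3 : e i - e j ≠ 0 := sub_ne_zero.2 fun h => hne' (hinj h)
    apply hne i j h3
    rw [hsub t _ _ (hd i) (hd j)]
    exact sub_eq_zero.2 hij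

end Pool.Agent.GT.F.H18
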